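import Mathlib

set_option autoImplicit false

namespace Pool.Agent.Results.MP_071a69_co.Wheel

open SimpleGraph Finset

/-- geodesic paths, each recorded by its edge set (so a path and its reverse count once) -/
def Geo {V : Type} [DecidableEq V] (G : SimpleGraph V) : Set (Finset (Sym2 V)) :=
  {s | ∃ (u v : V) (p : G.Walk u v), p.IsPath ∧ 1 ≤ p.length ∧ p.length = G.dist u v ∧
    s = p.edges.toFinset}

/-- geodesic Leech graph -/
def Leech {V : Type} [DecidableEq V] (G : SimpleGraph V) : Prop :=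
  ∃ f : Sym2 V → ℕ, (∀ e ∈ G.edgeSet, 1 ≤ f e) ∧
    (fun s => ∑ e ∈ s, f e) '' Geo G = Set.Icc 1 (Geo G).ncard

/-- the wheel on `n` vertices: a cycle on `n - 1` vertices and a hub `none` -/
def wheel (n : ℕ) : SimpleGraph (Option (Fin (n - 1))) :=
  fromRel fun a b => a = none ∨ ∃ x y, a = some x ∧ b = some y ∧ (cycleGraph (n - 1)).Adj x y

instance : DecidableRel (wheel 7).Adj := fun a b => by unfold wheel; infer_instance

abbrev V := Option (Fin (7 - 1))

def L : Finset (Finset (Sym2 V)) :=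
  ((univ.filter fun p : V × V => (wheel 7).Adj p.1 p.2).image fun p => {s(p.1, p.2)}) ∪
  ((univ.filter fun p : V × V × V => p.1 ≠ p.2.2 ∧ ¬ (wheel 7).Adj p.1 p.2.2 ∧ (wheel 7).Adj p.1 p.2.1 ∧
    (wheel 7).Adj p.2.1 p.2.2).image fun p => {s(p.1, p.2.1), s(p.2.1, p.2.2)})

lemma geo : Geo (wheel 7) = L := by
  have two : ∀ u w v, (wheel 7).Adj u w → (wheel 7).Adj w v → (wheel 7).dist u v ≤ 2 := fun u w v a b =>
    dist_le (.cons a (.cons b .nil))
  have d2 : ∀ u v, (wheel 7).dist u v ≤ 2 := fun u v => by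
    rcases (by decide : ∀ u v, u = v ∨ ∃ w, (wheel 7).Adj u w ∧ (wheel 7).Adj w v) u v with rfl | ⟨w, a, b⟩
    · simp
    · exact two u w v a b
  ext s
  simp only [Geo, L, Set.mem_ofPred_eq, coe_union, coe_image, Set.mem_union, Set.mem_image, mem_coe,
    mem_filter, mem_univ, true_and]
  constructor
  · rintro ⟨u, v, p, h1, h2, h3, rfl⟩
    have := d2 u v
    match p, h1, h2, h3 with
    | .cons a .nil, _, _, _ => exact .inl ⟨(_, _), a, by simp⟩
    | .cons a (.cons b .nil), h1, _, h3 =>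
      refine .inr ⟨(_, _, _), ⟨?_, fun c => ?_, a, b⟩, by simp⟩
      · intro e
        obtain rfl : u = v := e
        simp at h3
      · rw [dist_eq_one_iff_adj.2 c] at h3; simp at h3
    | .cons a (.cons b (.cons c q)), _, _, h3 => simp at h3; omega
  · rintro (⟨⟨u, v⟩, a, rfl⟩ | ⟨⟨u, w, v⟩, ⟨n1, n2, a, b⟩, rfl⟩)
    · exact ⟨u, v, .cons a .nil, by simp [a.ne], by simp, by simp [dist_eq_one_iff_adj.2 a], by simp⟩
    · refine ⟨u, v, .cons a (.cons b .nil), by simp [a.ne, b.ne, n1], by simp, ?_, by simp⟩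
      have := two u w v a b
      have h1 : (wheel 7).dist u v ≠ 1 := fun c => n2 (dist_eq_one_iff_adj.1 c)
      have h0 : 0 < (wheel 7).dist u v := (a.reachable.trans b.reachable).pos_dist_of_ne n1
      simp only [Walk.length_cons, Walk.length_nil]
      omega

def m : V → V → ℕ
  | none, none => 1
  | none, some i => ![1, 2, 3, 8, 12, 19] i
  | some i, none => ![1, 2, 3, 8, 12, 19] i
  | some i, some j => ![![1, 5, 1, 1, 1, 20], ![5, 1, 11, 1, 1, 1], ![1, 11, 1, 7, 1, 1],
      ![1, 1, 7, 1, 17, 1], ![1, 1, 1, 17, 1, 6], ![20, 1, 1, 1, 6, 1]] i j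

def f : Sym2 V → ℕ := Sym2.lift ⟨m, by decide⟩

theorem result : Leech (wheel 7) := by
  refine ⟨f, fun e _ => ?_, ?_⟩
  · induction e using Sym2.ind with
    | _ a b => exact (by decide : ∀ a b, 1 ≤ m a b) a b
  · rw [geo, Set.ncard_coe_finset, ← coe_image, ← coe_Icc, coe_inj]
    decide +kernel

end Pool.Agent.Results.MP_071a69_co.Wheel
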